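import Mathlib

-- part Pool.Agent.Lib.MP_8b3f09_an.Basis
section

set_option autoImplicit false

namespace Pool.Agent.Lib.MP_8b3f09_an

open Filter Topology

variable {X : Type*} [NormedAddCommGroup X] [NormedSpace ℝ X]

omit [NormedSpace ℝ X] in
/-- The sums over finite sets of a summable family are bounded. -/
theorem bdd_sums {u : ℕ → X} (hu : Summable u) :
    ∃ C : ℝ, ∀ A : Finset ℕ, ‖∑ n ∈ A, u n‖ ≤ C := by
  classical
  obtain ⟨s, hs⟩ := hu.vanishing (e := Metric.ball 0 1) (Metric.ball_mem_nhds _ one_pos)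
  refine ⟨∑ n ∈ s, ‖u n‖ + 1, fun A => ?_⟩
  rw [← Finset.sum_inter_add_sum_sdiff A s]
  refine (norm_add_le _ _).trans (add_le_add ?_ ?_)
  · refine (norm_sum_le _ _).trans ?_
    exact Finset.sum_le_sum_of_subset_of_nonneg Finset.inter_subset_right
      (fun _ _ _ => norm_nonneg _)
  · have := hs (A \ s) Finset.sdiff_disjoint
    rw [mem_ball_zero_iff] at this
    exact this.le

/-- Coordinate functionals of an unconditional basis are continuous and the
coordinate projections are uniformly bounded. -/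
theorem exists_coord [CompleteSpace X] (e : ℕ → X)
    (h : ∀ x : X, ∃! a : ℕ → ℝ, HasSum (fun n => a n • e n) x) :
    ∃ (c : ℕ → X →L[ℝ] ℝ) (K : ℝ), (∀ x, HasSum (fun n => c n x • e n) x) ∧
      (∀ (A : Finset ℕ) (x : X), ‖∑ n ∈ A, c n x • e n‖ ≤ K * ‖x‖) ∧ c 0 ≠ 0 := by
  classical
  choose a ha hu using h
  have hadd : ∀ x y, a (x + y) = a x + a y := by
    intro x y
    refine (hu (x + y) _ ?_).symm
    simpa [add_smul] using (ha x).add (ha y)
  have hsmul : ∀ (t : ℝ) x, a (t • x) = t • a x := by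
    intro t x
    refine (hu (t • x) _ ?_).symm
    simpa [mul_smul] using (ha x).const_smul t
  have hsingle : ∀ n, a (e n) = Pi.single n 1 := by
    intro n
    refine (hu (e n) _ ?_).symm
    have := hasSum_single (f := fun m => (Pi.single n (1 : ℝ) : ℕ → ℝ) m • e m) n
      (fun m hm => by simp [hm])
    simpa using this
  have hzero : a 0 = 0 := by
    refine (hu 0 _ ?_).symm
    simp
  have hne : ∀ n, e n ≠ 0 := by
    intro n hn
    have h1 := hsingle n
    rw [hn, hzero] at h1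
    have := congrFun h1 n
    simp at this
  have hmem : ∀ x, Memℓp (fun A : Finset ℕ => ∑ n ∈ A, a x n • e n) ⊤ := by
    intro x
    obtain ⟨C, hC⟩ := bdd_sums (ha x).summable
    exact memℓp_infty ⟨C, by rintro _ ⟨A, rfl⟩; exact hC A⟩
  let Φ : X →ₗ[ℝ] lp (fun _ : Finset ℕ => X) ⊤ :=
    { toFun := fun x => ⟨fun A => ∑ n ∈ A, a x n • e n, hmem x⟩
      map_add' := by
        intro x y
        ext A
        change ∑ n ∈ A, a (x + y) n • e n = ∑ n ∈ A, a x n • e n + ∑ n ∈ A, a y n • e n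
        simp [hadd, add_smul, Finset.sum_add_distrib]
      map_smul' := by
        intro t x
        ext A
        simp [hsmul, mul_smul, Finset.smul_sum] }
  have hΦ : ∀ x A, (Φ x : Finset ℕ → X) A = ∑ n ∈ A, a x n • e n := fun _ _ => rfl
  have hcont : Continuous Φ := by
    refine Φ.continuous_of_seq_closed_graph (fun u x F hux hF => ?_)
    have hev : ∀ A, Tendsto (fun k => (Φ (u k) : Finset ℕ → X) A) atTop (𝓝 ((F : Finset ℕ → X) A)) := by
      intro A
      rw [tendsto_iff_norm_sub_tendsto_zero] at hF ⊢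
      refine squeeze_zero (fun _ => norm_nonneg _) (fun k => ?_) hF
      have := lp.norm_apply_le_norm (by simp) (Φ (u k) - F) A
      simpa using this
    have hb : ∀ n, ∃ b : ℝ, (F : Finset ℕ → X) {n} = b • e n := by
      intro n
      have hcl : IsClosed ((ℝ ∙ e n : Submodule ℝ X) : Set X) :=
        Submodule.closed_of_finiteDimensional _
      have : (F : Finset ℕ → X) {n} ∈ ((ℝ ∙ e n : Submodule ℝ X) : Set X) := by
        refine hcl.mem_of_tendsto (hev {n}) (Eventually.of_forall fun k => ?_)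
        rw [hΦ, Finset.sum_singleton]
        exact Submodule.smul_mem _ _ (Submodule.mem_span_singleton_self _)
      obtain ⟨b, hb⟩ := Submodule.mem_span_singleton.1 this
      exact ⟨b, hb.symm⟩
    choose b hb using hb
    have hFA : ∀ A, (F : Finset ℕ → X) A = ∑ n ∈ A, b n • e n := by
      intro A
      refine tendsto_nhds_unique (hev A) ?_
      simp only [hΦ]
      refine tendsto_finsetSum _ (fun n _ => ?_)
      have := hev {n}
      simpa only [hΦ, Finset.sum_singleton, hb] using this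
    have hsum : HasSum (fun n => b n • e n) x := by
      unfold HasSum
      simp only [SummationFilter.unconditional_filter]
      rw [Metric.tendsto_nhds]
      intro ε hε
      have h1 : ∀ᶠ k in atTop, dist (Φ (u k)) F < ε / 3 :=
        (Metric.tendsto_nhds.1 hF) (ε / 3) (by positivity)
      have h2 : ∀ᶠ k in atTop, dist (u k) x < ε / 3 :=
        (Metric.tendsto_nhds.1 hux) (ε / 3) (by positivity)
      obtain ⟨k, hk1, hk2⟩ := (h1.and h2).exists
      have h3 := ha (u k)
      unfold HasSum at h3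
      simp only [SummationFilter.unconditional_filter] at h3
      filter_upwards [(Metric.tendsto_nhds.1 h3) (ε / 3) (by positivity)] with A hA
      have h4 : dist ((F : Finset ℕ → X) A) ((Φ (u k) : Finset ℕ → X) A) ≤ dist (Φ (u k)) F := by
        rw [dist_comm, dist_eq_norm, dist_eq_norm]
        have := lp.norm_apply_le_norm (by simp) (Φ (u k) - F) A
        simpa using this
      rw [← hFA, ]
      rw [hΦ] at h4
      calc dist ((F : Finset ℕ → X) A) x
          ≤ dist ((F : Finset ℕ → X) A) (∑ n ∈ A, a (u k) n • e n)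
            + dist (∑ n ∈ A, a (u k) n • e n) (u k) + dist (u k) x := dist_triangle4 _ _ _ _
        _ < ε := by linarith
    have hba : b = a x := hu x b hsum
    ext A
    rw [hFA, hΦ, hba]
  let Ψ : X →L[ℝ] lp (fun _ : Finset ℕ => X) ⊤ := ⟨Φ, hcont⟩
  have hK : ∀ (A : Finset ℕ) (x : X), ‖∑ n ∈ A, a x n • e n‖ ≤ ‖Ψ‖ * ‖x‖ := by
    intro A x
    rw [← hΦ]
    exact (lp.norm_apply_le_norm (by simp) (Φ x) A).trans (Ψ.le_opNorm x)
  let cl : ℕ → X →ₗ[ℝ] ℝ := fun n =>
    { toFun := fun x => a x n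
      map_add' := by intro x y; simp [hadd]
      map_smul' := by intro t x; simp [hsmul] }
  have hcl : ∀ n x, ‖cl n x‖ ≤ (‖Ψ‖ / ‖e n‖) * ‖x‖ := by
    intro n x
    have h1 := hK {n} x
    rw [Finset.sum_singleton, norm_smul] at h1
    have h2 : 0 < ‖e n‖ := norm_pos_iff.2 (hne n)
    rw [div_mul_eq_mul_div, le_div_iff₀ h2]
    exact h1
  refine ⟨fun n => (cl n).mkContinuous _ (hcl n), ‖Ψ‖, fun x => ha x, hK, ?_⟩
  intro h0
  have h1 : a (e 0) 0 = 0 := by
    have := congrArg (fun f : X →L[ℝ] ℝ => f (e 0)) h0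
    exact this
  rw [hsingle] at h1
  simp at h1

end Pool.Agent.Lib.MP_8b3f09_an
end

-- part Pool.Agent.Lib.MP_8b3f09_an.Main
section

set_option autoImplicit false

namespace Pool.Agent.Lib.MP_8b3f09_an

open Filter Topology

variable {X : Type*} [NormedAddCommGroup X] [NormedSpace ℝ X]

/-- No functional `g` satisfies `δ + ‖h‖ ≤ ‖g + h‖` for all `h` in the span of the coordinate
functionals of an unconditional basis, with `δ > 0`. -/
theorem no_daugavet_functional (e : ℕ → X) (c : ℕ → X →L[ℝ] ℝ) (K : ℝ)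
    (hsum : ∀ x, HasSum (fun n => c n x • e n) x)
    (hK : ∀ (A : Finset ℕ) (x : X), ‖∑ n ∈ A, c n x • e n‖ ≤ K * ‖x‖)
    (g : X →L[ℝ] ℝ) (δ : ℝ) (hδ : 0 < δ)
    (hg : ∀ h ∈ Submodule.span ℝ (Set.range c), δ + ‖h‖ ≤ ‖g + h‖) : False := by
  classical
  let P : Finset ℕ → X →L[ℝ] ℝ := fun A => ∑ n ∈ A, g (e n) • c n
  have hP : ∀ A x, P A x = g (∑ n ∈ A, c n x • e n) := by
    intro A x
    simp [P, map_sum, mul_comm]
  have hPmem : ∀ A, P A ∈ Submodule.span ℝ (Set.range c) := fun A =>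
    Submodule.sum_mem _ fun n _ => Submodule.smul_mem _ _ (Submodule.subset_span ⟨n, rfl⟩)
  have hPb : ∀ A, ‖P A‖ ≤ ‖g‖ * |K| := by
    intro A
    refine ContinuousLinearMap.opNorm_le_bound _ (by positivity) fun x => ?_
    rw [hP]
    calc ‖g (∑ n ∈ A, c n x • e n)‖ ≤ ‖g‖ * ‖∑ n ∈ A, c n x • e n‖ := g.le_opNorm _
      _ ≤ ‖g‖ * (|K| * ‖x‖) := by
        gcongr
        exact (hK A x).trans (by gcongr; exact le_abs_self K)
      _ = ‖g‖ * |K| * ‖x‖ := by ring
  have hbdd : BddAbove (Set.range fun A => ‖P A‖) := ⟨_, by rintro _ ⟨A, rfl⟩; exact hPb A⟩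
  set M : ℝ := ⨆ A, ‖P A‖ with hM
  have hle : ∀ A, ‖P A‖ ≤ M := fun A => le_ciSup hbdd A
  have hM0 : 0 ≤ M := (norm_nonneg _).trans (hle ∅)
  have hcompl : ∀ A, ‖g - P A‖ ≤ M := by
    intro A
    refine ContinuousLinearMap.opNorm_le_bound _ hM0 fun x => ?_
    have h1 : Tendsto (fun B : Finset ℕ => ∑ n ∈ B, c n x • e n) atTop (𝓝 x) := by
      have := hsum x
      unfold HasSum at this
      simpa only [SummationFilter.unconditional_filter] using this
    have h2 : Tendsto (fun B : Finset ℕ => ‖g (∑ n ∈ B, c n x • e n) - P A x‖) atTop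
        (𝓝 ‖g x - P A x‖) :=
      (((g.continuous.tendsto x).comp h1).sub tendsto_const_nhds).norm
    rw [_root_.sub_apply]
    refine le_of_tendsto h2 ?_
    filter_upwards [eventually_ge_atTop A] with B hB
    have h3 : g (∑ n ∈ B, c n x • e n) - P A x = P (B \ A) x := by
      rw [hP, hP, ← map_sub, Finset.sum_sdiff_eq_sub hB]
    rw [h3]
    exact ((P (B \ A)).le_opNorm x).trans (by gcongr; exact hle _)
  have hkey : ∀ A, ‖P A‖ ≤ M - δ := by
    intro A
    have h1 := hg (-P A) (Submodule.neg_mem _ (hPmem A))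
    rw [norm_neg, ← sub_eq_add_neg] at h1
    linarith [hcompl A]
  have : M ≤ M - δ := ciSup_le hkey
  linarith

/-- The origin is a slicely countably determined point of the unit ball. -/
theorem zero_scd (e : ℕ → X) (c : ℕ → X →L[ℝ] ℝ) (K : ℝ)
    (hsum : ∀ x, HasSum (fun n => c n x • e n) x)
    (hK : ∀ (A : Finset ℕ) (x : X), ‖∑ n ∈ A, c n x • e n‖ ≤ K * ‖x‖) (hc : c 0 ≠ 0) :
    ∃ (f : ℕ → (X →L[ℝ] ℝ)) (α : ℕ → ℝ),
      (∀ n, f n ≠ 0 ∧ 0 < α n) ∧
      ∀ y : ℕ → X,
        (∀ n, y n ∈ Metric.closedBall (0 : X) 1 ∧ ‖f n‖ - α n < f n (y n)) →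
        (0 : X) ∈ closure (convexHull ℝ (Set.range y)) := by
  classical
  obtain ⟨D, hDc, hD⟩ : TopologicalSpace.IsSeparable
      (Submodule.span ℝ (Set.range c) : Set (X →L[ℝ] ℝ)) :=
    (Set.countable_range c).isSeparable.span
  have hDne : D.Nonempty := by
    have := hD (Submodule.zero_mem _)
    exact closure_nonempty_iff.1 ⟨_, this⟩
  obtain ⟨d, rfl⟩ := hDc.exists_eq_range hDne
  refine ⟨fun n => if d (Nat.unpair n).1 = 0 then c 0 else d (Nat.unpair n).1,
    fun n => 1 / (((Nat.unpair n).2 : ℝ) + 1), fun n => ⟨?_, by positivity⟩, fun y hy => ?_⟩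
  · beta_reduce
    split_ifs with h
    · exact hc
    · exact h
  by_contra hnot
  obtain ⟨g, δ, hδ, hg⟩ := geometric_hahn_banach_point_closed
    (convex_convexHull ℝ (Set.range y)).closure isClosed_closure hnot
  rw [map_zero] at hδ
  have hgy : ∀ n, δ < g (y n) := fun n =>
    hg _ (subset_closure (subset_convexHull ℝ _ ⟨n, rfl⟩))
  refine no_daugavet_functional e c K hsum hK g δ hδ fun h hh => ?_
  refine le_of_forall_pos_le_add fun ε hε => ?_
  obtain ⟨_, ⟨i, rfl⟩, hi⟩ := Metric.mem_closure_iff.1 (hD hh) (ε / 3) (by positivity)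
  obtain ⟨m, hm⟩ := exists_nat_one_div_lt (show 0 < ε / 3 by positivity)
  obtain ⟨hy1, hy2⟩ := hy (Nat.pair i m)
  simp only [Nat.unpair_pair] at hy2
  set z := y (Nat.pair i m) with hz
  have hz1 : ‖z‖ ≤ 1 := by simpa using hy1
  have h1 : ‖d i‖ - ε / 3 < d i z := by
    split_ifs at hy2 with h0
    · rw [h0]; simp; positivity
    · linarith
  rw [dist_eq_norm] at hi
  have h2 : |(h - d i) z| ≤ ε / 3 := by
    have := (h - d i).le_opNorm z
    rw [Real.norm_eq_abs] at this
    refine this.trans ?_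
    calc ‖h - d i‖ * ‖z‖ ≤ (ε / 3) * 1 := by gcongr
      _ = ε / 3 := by ring
  have h3 : ‖h‖ ≤ ‖d i‖ + ε / 3 := by
    have := norm_add_le (d i) (h - d i)
    rw [add_sub_cancel] at this
    linarith
  have h4 : (g + h) z ≤ ‖g + h‖ := by
    have := (g + h).le_opNorm z
    rw [Real.norm_eq_abs] at this
    refine (le_abs_self _).trans (this.trans ?_)
    calc ‖g + h‖ * ‖z‖ ≤ ‖g + h‖ * 1 := by gcongr
      _ = _ := by ring
  rw [_root_.sub_apply] at h2
  rw [_root_.add_apply] at h4
  have h5 := hgy (Nat.pair i m)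
  rw [← hz] at h5
  have h6 := (abs_le.1 h2).1
  linarith

end Pool.Agent.Lib.MP_8b3f09_an
end
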