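import Pool.Agent.Lib.MP_8b3f09_an.Main

/-!
The origin is an SCD point of the unit ball of every nonzero space that embeds into a space with
an unconditional basis, over the real or complex numbers.
-/

set_option autoImplicit false

namespace Pool.Agent.Lib.MP_8b3f09_an

open Filter Topology

/-- `e` is an unconditional basis: a Schauder basis (every vector is the limit of the sums
`∑ n < N, a n • e n` for exactly one sequence of scalars) such that every convergent series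
`∑ a n • e n` converges unconditionally. -/
def IsUncondBasis (𝕜 : Type*) {Y : Type*} [RCLike 𝕜] [NormedAddCommGroup Y] [NormedSpace 𝕜 Y]
    (e : ℕ → Y) : Prop :=
  (∀ y : Y, ∃! a : ℕ → 𝕜, Tendsto (fun N => ∑ n ∈ Finset.range N, a n • e n) atTop (𝓝 y)) ∧
    ∀ (a : ℕ → 𝕜) (y : Y), Tendsto (fun N => ∑ n ∈ Finset.range N, a n • e n) atTop (𝓝 y) →
      Summable fun n => a n • e n

/-- The slice `S(C, f, α)`. -/
def slice {𝕜 X : Type*} [RCLike 𝕜] [NormedAddCommGroup X] [NormedSpace 𝕜 X] (C : Set X)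
    (f : X →L[𝕜] 𝕜) (α : ℝ) : Set X :=
  {x | x ∈ C ∧ sSup ((fun z => RCLike.re (f z)) '' C) - α < RCLike.re (f x)}

/-- `x` is an SCD point of `C`. -/
def IsSCDPoint (𝕜 : Type*) {X : Type*} [RCLike 𝕜] [NormedAddCommGroup X] [NormedSpace 𝕜 X]
    [NormedSpace ℝ X] (C : Set X) (x : X) : Prop :=
  x ∈ C ∧ ∃ (f : ℕ → X →L[𝕜] 𝕜) (α : ℕ → ℝ), (∀ n, f n ≠ 0 ∧ 0 < α n) ∧
    ∀ y : ℕ → X, (∀ n, y n ∈ slice C (f n) (α n)) → x ∈ closure (convexHull ℝ (Set.range y))

variable {𝕜 X : Type*} [RCLike 𝕜] [NormedAddCommGroup X] [NormedSpace 𝕜 X]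

/-- Coordinate functionals of an unconditional basis are continuous and the
coordinate projections are uniformly bounded. -/
theorem exists_coord' [CompleteSpace X] (e : ℕ → X)
    (h : ∀ x : X, ∃! a : ℕ → 𝕜, HasSum (fun n => a n • e n) x) :
    ∃ (c : ℕ → X →L[𝕜] 𝕜) (K : ℝ), (∀ x, HasSum (fun n => c n x • e n) x) ∧
      (∀ (A : Finset ℕ) (x : X), ‖∑ n ∈ A, c n x • e n‖ ≤ K * ‖x‖) := by
  classical
  choose a ha hu using h
  have hadd : ∀ x y, a (x + y) = a x + a y := by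
    intro x y
    refine (hu (x + y) _ ?_).symm
    simpa [add_smul] using (ha x).add (ha y)
  have hsmul : ∀ (t : 𝕜) x, a (t • x) = t • a x := by
    intro t x
    refine (hu (t • x) _ ?_).symm
    simpa [mul_smul] using (ha x).const_smul t
  have hsingle : ∀ n, a (e n) = Pi.single n 1 := by
    intro n
    refine (hu (e n) _ ?_).symm
    have := hasSum_single (f := fun m => (Pi.single n (1 : 𝕜) : ℕ → 𝕜) m • e m) n
      (fun m hm => by simp [hm])
    simpa using this
  have hzero : a 0 = 0 := by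
    refine (hu 0 _ ?_).symm
    simp
  have hne : ∀ n, e n ≠ 0 := by
    intro n hn
    have h1 := hsingle n
    rw [hn, hzero] at h1
    have := congrFun h1 n
    simp at this
  have hmem : ∀ x, Memℓp (fun A : Finset ℕ => ∑ n ∈ A, a x n • e n) ⊤ := by
    intro x
    obtain ⟨C, hC⟩ := bdd_sums (ha x).summable
    exact memℓp_infty ⟨C, by rintro _ ⟨A, rfl⟩; exact hC A⟩
  let Φ : X →ₗ[𝕜] lp (fun _ : Finset ℕ => X) ⊤ :=
    { toFun := fun x => ⟨fun A => ∑ n ∈ A, a x n • e n, hmem x⟩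
      map_add' := by
        intro x y
        ext A
        change ∑ n ∈ A, a (x + y) n • e n = ∑ n ∈ A, a x n • e n + ∑ n ∈ A, a y n • e n
        simp [hadd, add_smul, Finset.sum_add_distrib]
      map_smul' := by
        intro t x
        ext A
        simp [hsmul, mul_smul, Finset.smul_sum] }
  have hΦ : ∀ x A, (Φ x : Finset ℕ → X) A = ∑ n ∈ A, a x n • e n := fun _ _ => rfl
  have hcont : Continuous Φ := by
    refine Φ.continuous_of_seq_closed_graph (fun u x F hux hF => ?_)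
    have hev : ∀ A, Tendsto (fun k => (Φ (u k) : Finset ℕ → X) A) atTop (𝓝 ((F : Finset ℕ → X) A)) := by
      intro A
      rw [tendsto_iff_norm_sub_tendsto_zero] at hF ⊢
      refine squeeze_zero (fun _ => norm_nonneg _) (fun k => ?_) hF
      have := lp.norm_apply_le_norm (by simp) (Φ (u k) - F) A
      simpa using this
    have hb : ∀ n, ∃ b : 𝕜, (F : Finset ℕ → X) {n} = b • e n := by
      intro n
      have hcl : IsClosed ((𝕜 ∙ e n : Submodule 𝕜 X) : Set X) :=
        Submodule.closed_of_finiteDimensional _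
      have : (F : Finset ℕ → X) {n} ∈ ((𝕜 ∙ e n : Submodule 𝕜 X) : Set X) := by
        refine hcl.mem_of_tendsto (hev {n}) (Eventually.of_forall fun k => ?_)
        rw [hΦ, Finset.sum_singleton]
        exact Submodule.smul_mem _ _ (Submodule.mem_span_singleton_self _)
      obtain ⟨b, hb⟩ := Submodule.mem_span_singleton.1 this
      exact ⟨b, hb.symm⟩
    choose b hb using hb
    have hFA : ∀ A, (F : Finset ℕ → X) A = ∑ n ∈ A, b n • e n := by
      intro A
      refine tendsto_nhds_unique (hev A) ?_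
      simp only [hΦ]
      refine tendsto_finsetSum _ (fun n _ => ?_)
      have := hev {n}
      simpa only [hΦ, Finset.sum_singleton, hb] using this
    have hsum : HasSum (fun n => b n • e n) x := by
      unfold HasSum
      simp only [SummationFilter.unconditional_filter]
      rw [Metric.tendsto_nhds]
      intro ε hε
      have h1 : ∀ᶠ k in atTop, dist (Φ (u k)) F < ε / 3 :=
        (Metric.tendsto_nhds.1 hF) (ε / 3) (by positivity)
      have h2 : ∀ᶠ k in atTop, dist (u k) x < ε / 3 :=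
        (Metric.tendsto_nhds.1 hux) (ε / 3) (by positivity)
      obtain ⟨k, hk1, hk2⟩ := (h1.and h2).exists
      have h3 := ha (u k)
      unfold HasSum at h3
      simp only [SummationFilter.unconditional_filter] at h3
      filter_upwards [(Metric.tendsto_nhds.1 h3) (ε / 3) (by positivity)] with A hA
      have h4 : dist ((F : Finset ℕ → X) A) ((Φ (u k) : Finset ℕ → X) A) ≤ dist (Φ (u k)) F := by
        rw [dist_comm, dist_eq_norm, dist_eq_norm]
        have := lp.norm_apply_le_norm (by simp) (Φ (u k) - F) A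
        simpa using this
      rw [← hFA, ]
      rw [hΦ] at h4
      calc dist ((F : Finset ℕ → X) A) x
          ≤ dist ((F : Finset ℕ → X) A) (∑ n ∈ A, a (u k) n • e n)
            + dist (∑ n ∈ A, a (u k) n • e n) (u k) + dist (u k) x := dist_triangle4 _ _ _ _
        _ < ε := by linarith
    have hba : b = a x := hu x b hsum
    ext A
    rw [hFA, hΦ, hba]
  let Ψ : X →L[𝕜] lp (fun _ : Finset ℕ => X) ⊤ := ⟨Φ, hcont⟩
  have hK : ∀ (A : Finset ℕ) (x : X), ‖∑ n ∈ A, a x n • e n‖ ≤ ‖Ψ‖ * ‖x‖ := by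
    intro A x
    rw [← hΦ]
    exact (lp.norm_apply_le_norm (by simp) (Φ x) A).trans (Ψ.le_opNorm x)
  let cl : ℕ → X →ₗ[𝕜] 𝕜 := fun n =>
    { toFun := fun x => a x n
      map_add' := by intro x y; simp [hadd]
      map_smul' := by intro t x; simp [hsmul] }
  have hcl : ∀ n x, ‖cl n x‖ ≤ (‖Ψ‖ / ‖e n‖) * ‖x‖ := by
    intro n x
    have h1 := hK {n} x
    rw [Finset.sum_singleton, norm_smul] at h1
    have h2 : 0 < ‖e n‖ := norm_pos_iff.2 (hne n)
    rw [div_mul_eq_mul_div, le_div_iff₀ h2]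
    exact h1
  exact ⟨fun n => (cl n).mkContinuous _ (hcl n), ‖Ψ‖, fun x => ha x, hK⟩

theorem IsUncondBasis.hasSum {e : ℕ → X} (h : IsUncondBasis 𝕜 e) (x : X) :
    ∃! a : ℕ → 𝕜, HasSum (fun n => a n • e n) x := by
  obtain ⟨a, h1, h2⟩ := h.1 x
  have h3 := (h.2 a x h1).hasSum
  exact ⟨a, tendsto_nhds_unique h3.tendsto_sum_nat h1 ▸ h3, fun b hb => h2 b hb.tendsto_sum_nat⟩

theorem norm_le_sSup (f : X →L[𝕜] 𝕜) :
    ‖f‖ ≤ sSup ((fun z => RCLike.re (f z)) '' Metric.closedBall 0 1) := by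
  have hb : BddAbove ((fun z => RCLike.re (f z)) '' Metric.closedBall (0 : X) 1) := ⟨‖f‖, by
    rintro _ ⟨z, hz, rfl⟩
    exact (RCLike.re_le_norm _).trans (f.unit_le_opNorm z (by simpa using hz))⟩
  refine f.opNorm_le_of_unit_norm (le_csSup hb ⟨0, by simp, by simp⟩) fun x hx => ?_
  obtain ⟨c, h1, h2⟩ := RCLike.exists_norm_eq_mul_self (f x)
  refine le_csSup hb ⟨c • x, by simp [norm_smul, h1, hx], ?_⟩
  simp only [map_smul, smul_eq_mul, ← h2, RCLike.ofReal_re]

/-- An unconditionally weak-star convergent series of functionals from `V` cannot sum to a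
functional with a Daugavet type inequality over `V`. -/
theorem no_daugavet {V : Submodule 𝕜 (X →L[𝕜] 𝕜)} {g : X →L[𝕜] 𝕜} {p : ℕ → X →L[𝕜] 𝕜} {C δ : ℝ}
    (hp : ∀ n, p n ∈ V) (hs : ∀ x, HasSum (fun n => p n x) (g x))
    (hC : ∀ A : Finset ℕ, ‖∑ n ∈ A, p n‖ ≤ C) (hδ : 0 < δ) (hg : ∀ h ∈ V, δ + ‖h‖ ≤ ‖g + h‖) :
    False := by
  classical
  have hbdd : BddAbove (Set.range fun A : Finset ℕ => ‖∑ n ∈ A, p n‖) :=
    ⟨C, by rintro _ ⟨A, rfl⟩; exact hC A⟩
  set M : ℝ := ⨆ A : Finset ℕ, ‖∑ n ∈ A, p n‖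
  have hle : ∀ A : Finset ℕ, ‖∑ n ∈ A, p n‖ ≤ M := fun A => le_ciSup hbdd A
  have h1 : ∀ A : Finset ℕ, ‖g - ∑ n ∈ A, p n‖ ≤ M := fun A => by
    refine ContinuousLinearMap.opNorm_le_bound _ ((norm_nonneg _).trans (hle ∅)) fun x => ?_
    have h2 : Tendsto (fun B : Finset ℕ => ∑ n ∈ B, p n x) atTop (𝓝 (g x)) := hs x
    refine le_of_tendsto (h2.sub_const ((∑ n ∈ A, p n) x)).norm ?_
    filter_upwards [eventually_ge_atTop A] with B hB
    rw [← _root_.sum_apply, ← _root_.sub_apply, ← Finset.sum_sdiff_eq_sub hB]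
    exact (ContinuousLinearMap.le_opNorm _ x).trans (by gcongr; exact hle _)
  have h3 : M ≤ M - δ := ciSup_le fun A => by
    have := hg _ (V.neg_mem (V.sum_mem (t := A) fun n _ => hp n))
    rw [norm_neg, ← sub_eq_add_neg] at this
    linarith [h1 A]
  linarith

theorem zero_scd' [NormedSpace ℝ X] [IsScalarTower ℝ 𝕜 X] [Nontrivial X]
    {V : Submodule 𝕜 (X →L[𝕜] 𝕜)} (hV : TopologicalSpace.IsSeparable (V : Set (X →L[𝕜] 𝕜)))
    (H : ∀ (g : X →L[𝕜] 𝕜) (δ : ℝ), 0 < δ → ¬ ∀ h ∈ V, δ + ‖h‖ ≤ ‖g + h‖) :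
    IsSCDPoint 𝕜 (Metric.closedBall (0 : X) 1) 0 := by
  classical
  obtain ⟨x0, hx0⟩ := exists_ne (0 : X)
  obtain ⟨c, hc, -⟩ := exists_dual_vector 𝕜 x0 (norm_ne_zero_iff.2 hx0)
  obtain ⟨D, hDc, hD⟩ := hV
  obtain ⟨d, rfl⟩ := hDc.exists_eq_range (closure_nonempty_iff.1 ⟨_, hD V.zero_mem⟩)
  refine ⟨by simp, fun n => if d (Nat.unpair n).1 = 0 then c else d (Nat.unpair n).1,
    fun n => 1 / (((Nat.unpair n).2 : ℝ) + 1), fun n => ⟨?_, by positivity⟩, fun y hy => ?_⟩
  · beta_reduce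
    split_ifs with h
    · exact norm_ne_zero_iff.1 (hc ▸ one_ne_zero)
    · exact h
  by_contra hnot
  obtain ⟨g, δ, hδ, hg⟩ := RCLike.geometric_hahn_banach_point_closed (𝕜 := 𝕜)
    (convex_convexHull ℝ (Set.range y)).closure isClosed_closure hnot
  rw [map_zero, map_zero] at hδ
  refine H g δ hδ fun h hh => le_of_forall_pos_le_add fun ε hε => ?_
  obtain ⟨_, ⟨i, rfl⟩, hi⟩ := Metric.mem_closure_iff.1 (hD hh) (ε / 3) (by positivity)
  obtain ⟨m, hm⟩ := exists_nat_one_div_lt (show 0 < ε / 3 by positivity)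
  obtain ⟨hy1, hy2⟩ := hy (Nat.pair i m)
  have h5 := hg _ (subset_closure (subset_convexHull ℝ _ ⟨Nat.pair i m, rfl⟩))
  simp only [Nat.unpair_pair] at hy2
  generalize y (Nat.pair i m) = z at hy1 hy2 h5
  have hz : ‖z‖ ≤ 1 := by simpa using hy1
  have h1 : ‖d i‖ - ε / 3 < RCLike.re (d i z) := by
    split_ifs at hy2 with h0
    · rw [h0]
      simpa using hε
    · linarith [norm_le_sSup (d i)]
  rw [dist_comm, dist_eq_norm] at hi
  have h2 := (RCLike.re_le_norm _).trans ((d i - h).unit_le_opNorm z hz)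
  have h3 := norm_sub_norm_le h (d i)
  have h4 := (RCLike.re_le_norm _).trans ((g + h).unit_le_opNorm z hz)
  rw [_root_.sub_apply, map_sub] at h2
  rw [_root_.add_apply, map_add] at h4
  rw [norm_sub_rev] at h3
  linarith

theorem exists_ext {Y : Type*} [NormedAddCommGroup Y] [NormedSpace 𝕜 Y] (J : X →L[𝕜] Y) {c : ℝ}
    (hc : 0 < c) (hJ : ∀ x, c * ‖x‖ ≤ ‖J x‖) (g : X →L[𝕜] 𝕜) :
    ∃ G : Y →L[𝕜] 𝕜, ∀ x, G (J x) = g x := by
  have hi : Function.Injective J.toLinearMap := (injective_iff_map_eq_zero J).2 fun x hx => by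
    have := hJ x
    rw [hx, norm_zero] at this
    exact norm_le_zero_iff.1 (nonpos_of_mul_nonpos_right this hc)
  have e : ∀ x, (LinearEquiv.ofInjective _ hi).symm ⟨J x, x, rfl⟩ = x := fun x =>
    (LinearEquiv.symm_apply_eq _).2 rfl
  obtain ⟨G, hG, -⟩ := exists_extension_norm_eq (LinearMap.range J.toLinearMap)
    ((g.toLinearMap ∘ₗ (LinearEquiv.ofInjective _ hi).symm.toLinearMap).mkContinuous (‖g‖ / c) (by
      rintro ⟨_, x, rfl⟩
      refine (le_of_eq (congrArg (fun z => ‖g z‖) (e x))).trans ((g.le_opNorm x).trans ?_)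
      rw [div_mul_eq_mul_div, mul_div_assoc]
      exact mul_le_mul_of_nonneg_left ((le_div_iff₀' hc).2 (hJ x)) (norm_nonneg g)))
  exact ⟨G, fun x => (hG ⟨J x, x, rfl⟩).trans (congrArg g (e x))⟩

theorem zero_scd_of_embed [NormedSpace ℝ X] [IsScalarTower ℝ 𝕜 X] [Nontrivial X] {Y : Type*}
    [NormedAddCommGroup Y] [NormedSpace 𝕜 Y] [CompleteSpace Y] {e : ℕ → Y}
    (he : IsUncondBasis 𝕜 e) (J : X →L[𝕜] Y) {c : ℝ} (hc : 0 < c) (hJ : ∀ x, c * ‖x‖ ≤ ‖J x‖) :
    IsSCDPoint 𝕜 (Metric.closedBall (0 : X) 1) 0 := by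
  obtain ⟨a, K, h1, h2⟩ := exists_coord' e he.hasSum
  refine zero_scd' (V := Submodule.span 𝕜 (Set.range fun n => (a n).comp J))
    (Set.countable_range _).isSeparable.span fun g δ hδ hg => ?_
  obtain ⟨G, hG⟩ := exists_ext J hc hJ g
  have e1 : ∀ n x, (G (e n) • (a n).comp J) x = G (a n (J x) • e n) := fun n x => by
    simp [mul_comm]
  refine no_daugavet (p := fun n => G (e n) • (a n).comp J) (C := ‖G‖ * (|K| * ‖J‖))
    (fun n => Submodule.smul_mem _ _ (Submodule.subset_span (Set.mem_range_self n))) (fun x => ?_)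
    (fun A => ContinuousLinearMap.opNorm_le_bound _ (by positivity) fun x => ?_) hδ hg
  · simp only [e1, ← hG]
    exact G.hasSum (h1 (J x))
  · simp only [_root_.sum_apply, e1, ← map_sum, mul_assoc]
    refine (G.le_opNorm _).trans (mul_le_mul_of_nonneg_left ((h2 A _).trans ?_) (norm_nonneg G))
    exact mul_le_mul (le_abs_self K) (J.le_opNorm x) (norm_nonneg _) (abs_nonneg K)

end Pool.Agent.Lib.MP_8b3f09_an
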